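import Pool.Agent.helper56.CT.SpecA

namespace CT
open Finset

def B3_P {Q : Type} (q : Fin 4 → Q) (l : Fin 4) : Prop :=
  ∀ f : Q → Bool, (∀ k k', k ≠ l → k' ≠ l → f (q k) = f (q k')) → ∀ r s, f r = f s

def B3_R {Q : Type} (q : Fin 4 → Q) (t : Fin 3) : Prop :=
  ∀ f : Q → Bool, f (q (pr t).1) = f (q (pr t).2.1) →
        f (q (pr t).2.2.1) = f (q (pr t).2.2.2) → ∀ r s, f r = f s

theorem B3_P_tr {Q Q' : Type} (e : Q ≃ Q') (q : Fin 4 → Q) (l : Fin 4) :
    B3_P q l ↔ B3_P (fun k => e (q k)) l := by
  constructor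
  · intro h f hf r s
    have := h (fun x => f (e x)) hf (e.symm r) (e.symm s)
    simpa using this
  · intro h f hf r s
    have := h (fun x => f (e.symm x)) (by simpa using hf) (e r) (e s)
    simpa using this

theorem B3_R_tr {Q Q' : Type} (e : Q ≃ Q') (q : Fin 4 → Q) (l : Fin 3) :
    B3_R q l ↔ B3_R (fun k => e (q k)) l := by
  constructor
  · intro h f hf hf2 r s
    have := h (fun x => f (e x)) hf hf2 (e.symm r) (e.symm s)
    simpa using this
  · intro h f hf hf2 r s
    have := h (fun x => f (e.symm x)) (by simpa using hf) (by simpa using hf2) (e r) (e s)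
    simpa using this

theorem B3_dec : ∀ q : Fin 4 → Fin 3,
    ((univ : Finset (Fin 4)).filter fun l =>
      ∀ f : Fin 3 → Bool, (∀ k k', k ≠ l → k' ≠ l → f (q k) = f (q k')) → ∀ r s, f r = f s).card =
    ((univ : Finset (Fin 3)).filter fun t =>
      ∀ f : Fin 3 → Bool, f (q (pr t).1) = f (q (pr t).2.1) →
        f (q (pr t).2.2.1) = f (q (pr t).2.2.2) → ∀ r s, f r = f s).card := by
  decide +kernel

theorem B3_P_surj {Q : Type} [Fintype Q] [DecidableEq Q] (q : Fin 4 → Q) (h3 : 3 ≤ Fintype.card Q)
    (l : Fin 4) (h : B3_P q l) : ∀ r, ∃ k, k ≠ l ∧ q k = r := by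
  intro r
  by_contra hcon
  push Not at hcon
  obtain ⟨s, hs⟩ : ∃ s, s ≠ r := by
    have : Nontrivial Q := Fintype.one_lt_card_iff_nontrivial.1 (by omega)
    exact exists_ne r
  have h1 := h (fun x => decide (x = r)) (by
    intro k k' hk hk'
    simp [hcon k hk, hcon k' hk']) r s
  simp [hs] at h1

theorem B3_R_surj {Q : Type} [Fintype Q] [DecidableEq Q] (q : Fin 4 → Q) (h3 : 3 ≤ Fintype.card Q)
    (t : Fin 3) (h : B3_R q t) : Function.Surjective q := by
  intro r
  by_contra hcon
  push Not at hcon
  obtain ⟨s, hs⟩ : ∃ s, s ≠ r := by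
    have : Nontrivial Q := Fintype.one_lt_card_iff_nontrivial.1 (by omega)
    exact exists_ne r
  have h1 := h (fun x => decide (x = r)) (by simp [hcon]) (by simp [hcon]) r s
  simp [hs] at h1

theorem B3_pr : ∀ t : Fin 3, (pr t).1 ≠ (pr t).2.2.1 ∧ (pr t).1 ≠ (pr t).2.2.2 ∧
    (pr t).2.1 ≠ (pr t).2.2.1 ∧ (pr t).2.1 ≠ (pr t).2.2.2 := by decide

theorem B3_R_inj {Q : Type} [DecidableEq Q] (q : Fin 4 → Q) (t : Fin 3) (h : B3_R q t)
    (hq : Function.Injective q) : False := by
  obtain ⟨h1, h2, h3, h4⟩ := B3_pr t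
  have := h (fun x => decide (x = q (pr t).1 ∨ x = q (pr t).2.1)) (by simp)
    (by simp [hq.eq_iff, h1.symm, h2.symm, h3.symm, h4.symm]) (q (pr t).1) (q (pr t).2.2.1)
  simp [hq.eq_iff, h1.symm, h3.symm] at this

theorem B3 : B3_stmt := by
  classical
  intro Q _ _ q h3
  have key : ∀ (p1 : DecidablePred (B3_P q)) (p2 : DecidablePred (B3_R q)),
      ((univ : Finset (Fin 4)).filter (B3_P q)).card = ((univ : Finset (Fin 3)).filter (B3_R q)).card := by
    intro p1 p2
    by_cases hs : Function.Surjective q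
    · have hle : Fintype.card Q ≤ 4 := by
        have := Fintype.card_le_of_surjective q hs
        simpa using this
      rcases Nat.lt_or_ge (Fintype.card Q) 4 with h4 | h4
      · -- card = 3
        have hc : Fintype.card Q = 3 := by omega
        have e : Q ≃ Fin 3 := Fintype.equivFinOfCardEq hc
        have hd := B3_dec (fun k => e (q k))
        have e1 : (univ : Finset (Fin 4)).filter (B3_P q) = ((univ : Finset (Fin 4)).filter fun l =>
            ∀ f : Fin 3 → Bool, (∀ k k', k ≠ l → k' ≠ l → f (e (q k)) = f (e (q k'))) →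
              ∀ r s, f r = f s) := by
          ext l
          rw [mem_filter, mem_filter, B3_P_tr e]
          rfl
        have e2 : (univ : Finset (Fin 3)).filter (B3_R q) = ((univ : Finset (Fin 3)).filter fun t =>
            ∀ f : Fin 3 → Bool, f (e (q (pr t).1)) = f (e (q (pr t).2.1)) →
              f (e (q (pr t).2.2.1)) = f (e (q (pr t).2.2.2)) → ∀ r s, f r = f s) := by
          ext l
          rw [mem_filter, mem_filter, B3_R_tr e]
          rfl
        rw [e1, e2, hd]
      · have hinj : Function.Injective q := by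
          have : Fintype.card (Fin 4) = Fintype.card Q := by rw [Fintype.card_fin]; omega
          exact ((Fintype.bijective_iff_surjective_and_card q).2 ⟨hs, this⟩).1
        rw [Finset.filter_false_of_mem, Finset.filter_false_of_mem]
        · simp
        · intro t _ h
          exact B3_R_inj q t h hinj
        · intro l _ h
          obtain ⟨k, hk, hk2⟩ := B3_P_surj q h3 l h (q l)
          exact hk (hinj hk2)
    · rw [Finset.filter_false_of_mem, Finset.filter_false_of_mem]
      · simp
      · intro t _ h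
        exact hs (B3_R_surj q h3 t h)
      · intro l _ h
        exact hs (fun r => by
          obtain ⟨k, _, hk⟩ := B3_P_surj q h3 l h r
          exact ⟨k, hk⟩)
  have h0 := key (Classical.decPred _) (Classical.decPred _)
  refine Eq.trans ?_ (h0.trans ?_)
  · congr 1
    ext l
    rw [mem_filter, mem_filter]
    rfl
  · congr 1
    ext l
    rw [mem_filter, mem_filter]
    rfl

end CT
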