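import Pool.Agent.helper56.CT.SpecA

namespace CT
open Finset

section
variable {V : Type} [DecidableEq V]

theorem B5_pr : ∀ t : Fin 3, (pr t).1 ≠ (pr t).2.1 ∧ (pr t).1 ≠ (pr t).2.2.1 ∧
    (pr t).1 ≠ (pr t).2.2.2 ∧ (pr t).2.1 ≠ (pr t).2.2.1 ∧ (pr t).2.1 ≠ (pr t).2.2.2 ∧
    (pr t).2.2.1 ≠ (pr t).2.2.2 ∧ ∀ i, i = (pr t).1 ∨ i = (pr t).2.1 ∨ i = (pr t).2.2.1 ∨
      i = (pr t).2.2.2 := by decide

theorem B5_ls (e : V × Fin 4 → V × Fin 4) (u : V) (h : ∀ i j, e (u, i) ≠ (u, j)) (t : Fin 3) :
    ls e u t = 0 := by
  obtain ⟨h1, h2, h3, h4, h5, h6, _⟩ := B5_pr t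
  unfold ls lp join
  simp [h, h2.symm, h4.symm]

theorem B5_act (e : V × Fin 4 → V × Fin 4) (u v : V) (S : Finset V) (hu : u ∉ S) (huv : u ≠ v)
    (ha : Act (dts (insert v (insert u S))) e) (t : Fin 3) :
    Act (dts (insert v S)) (sm e u t) := by
  obtain ⟨h1, h2, h3, h4, h5, h6, h7⟩ := B5_pr t
  have hm : ∀ i : Fin 4, (u, i) ∈ dts (insert v (insert u S)) := by
    intro i
    unfold dts
    rw [mem_product]
    exact ⟨by simp, mem_univ _⟩
  have a1 := join_act ha (hm (pr t).1) (hm (pr t).2.1) (by
    intro h; exact h1 (Prod.mk.inj h).2)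
  have a2 := join_act a1 (x := (u, (pr t).2.2.1)) (y := (u, (pr t).2.2.2))
    (by rw [mem_erase, mem_erase]; exact ⟨fun h => h4 (Prod.mk.inj h).2.symm,
          fun h => h2 (Prod.mk.inj h).2.symm, hm _⟩)
    (by rw [mem_erase, mem_erase]; exact ⟨fun h => h5 (Prod.mk.inj h).2.symm,
          fun h => h3 (Prod.mk.inj h).2.symm, hm _⟩)
    (by intro h; exact h6 (Prod.mk.inj h).2)
  have he : ((((dts (insert v (insert u S))).erase (u, (pr t).1)).erase (u, (pr t).2.1)).erase
      (u, (pr t).2.2.1)).erase (u, (pr t).2.2.2) = dts (insert v S) := by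
    ext ⟨w, i⟩
    unfold dts
    simp only [mem_erase, mem_product, mem_insert, mem_univ, and_true, ne_eq, Prod.mk.injEq, not_and]
    constructor
    · rintro ⟨g1, g2, g3, g4, g5⟩
      rcases g5 with h | h | h
      · exact Or.inl h
      · exfalso
        rcases h7 i with h | h | h | h
        · exact g4 (by assumption) h
        · exact g3 (by assumption) h
        · exact g2 (by assumption) h
        · exact g1 (by assumption) h
      · exact Or.inr h
    · intro h
      have hw : w ≠ u := by
        rcases h with h | h
        · rw [h]; exact huv.symm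
        · intro h'; rw [h'] at h; exact hu h
      exact ⟨fun h' => absurd h' hw, fun h' => absurd h' hw, fun h' => absurd h' hw,
        fun h' => absurd h' hw, by rcases h with h | h <;> simp [h]⟩
  rw [he] at a2
  exact a2

end

open Classical in
theorem B5_TP0 {V : Type} [DecidableEq V] (S : Finset V) (e : V × Fin 4 → V × Fin 4)
    (h : ∀ T ⊆ DU S e, Tr S e T → ¬ Tr S e (DU S e \ T)) : TP S e = 0 := by
  unfold TP
  rw [card_eq_zero, filter_eq_empty_iff]
  rintro T hT ⟨_, h1, h2⟩
  exact h T (mem_powerset.1 hT) h1 h2

theorem B5 (hB1 : B1_stmt) (hB2 : B2_stmt) (hB4 : B4_stmt) : B5_stmt := by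
  intro V _ _ v L
  induction L with
  | nil => intro e _ h; exact absurd rfl h
  | cons u L ih =>
    intro e hnd _ hv ha
    rw [List.nodup_cons] at hnd
    obtain ⟨huL, hL⟩ := hnd
    rw [List.mem_cons, not_or] at hv
    obtain ⟨hvu, hvL⟩ := hv
    have hact : ∀ i, e (u, i) ≠ (u, i) := by
      intro i
      rw [ha.2]
      unfold dts
      rw [mem_product]
      exact ⟨by simp, mem_univ _⟩
    have hact2 : ∀ d, d.1 ∈ (u :: L).toFinset → e d ≠ d := by
      intro d hd
      rw [ha.2]
      unfold dts
      rw [mem_product]
      exact ⟨mem_insert_of_mem hd, mem_univ _⟩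
    by_cases hloop : ∃ i j, e (u, i) = (u, j)
    · obtain ⟨i, j, hij⟩ := hloop
      have hne : i ≠ j := by
        intro h; rw [← h] at hij; exact hact i hij
      rw [hB1 V L e u i j ha.1 hact hne hij]
      have hTP : TP (u :: L).toFinset e = 0 := by
        rcases List.eq_nil_or_concat L with hL0 | ⟨_, _, hL0⟩
        · subst hL0
          refine B5_TP0 _ e ?_
          intro T hT h1 h2
          have c1 : T.card = 0 := by
            have := h1.1
            simp at this
            simpa using this
          have c2 : (DU [u].toFinset e \ T).card = 0 := by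
            have := h2.1
            simp only [List.toFinset_cons, List.toFinset_nil, insert_empty_eq, card_singleton] at this
            simp only [List.toFinset_cons, List.toFinset_nil, insert_empty_eq]
            omega
          rw [card_eq_zero] at c1 c2
          rw [c1, sdiff_empty] at c2
          have : (u, i) ∈ DU [u].toFinset e := by
            unfold DU dts
            rw [mem_filter, mem_product, hij]
            simp
          rw [c2] at this
          exact absurd this (notMem_empty _)
        · refine hB2 V (u :: L).toFinset e u i j ha.1 hact2 (by simp) ?_ hne hij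
          rw [List.toFinset_card_of_nodup (List.nodup_cons.2 ⟨huL, hL⟩)]
          rw [hL0]; simp
      rw [hTP]; simp
    · push Not at hloop
      have hls := B5_ls e u hloop
      have hZ : Z (-2) (u :: L) e = ∑ t : Fin 3, Z (-2) L (sm e u t) := by
        show ∑ t : Fin 3, (-2 : ℤ) ^ ls e u t * Z (-2) L (sm e u t) = _
        refine sum_congr rfl fun t _ => ?_
        rw [hls t]; simp
      rw [hZ]
      rcases List.eq_nil_or_concat L with hL0 | ⟨_, _, hL0⟩
      · subst hL0
        have hDU : DU [u].toFinset e = ∅ := by
          unfold DU dts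
          rw [filter_eq_empty_iff]
          rintro ⟨w, i⟩ hw h2
          simp only [List.toFinset_cons, List.toFinset_nil, insert_empty_eq, mem_product,
            mem_singleton, mem_univ, and_true] at hw h2
          rw [hw] at h2
          exact hloop i (e (u, i)).2 (Prod.ext h2 rfl)
        have hTP : TP [u].toFinset e = 1 := by
          unfold TP
          rw [hDU, card_eq_one]
          refine ⟨∅, ?_⟩
          rw [powerset_empty, filter_singleton, if_pos]
          have hTr : Tr [u].toFinset e ∅ := by
            refine ⟨by simp, ?_⟩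
            intro φ _ a ha b hb
            simp at ha hb
            rw [ha, hb]
          exact ⟨by simp, hTr, by rw [sdiff_empty]; exact hTr⟩
        rw [hTP]
        simp [Z]
      · have hLne : L ≠ [] := by rw [hL0]; simp
        have h4 := hB4 V (u :: L).toFinset v u e (by simp [hvu, hvL]) (by simp) (by
          rw [List.toFinset_card_of_nodup (List.nodup_cons.2 ⟨huL, hL⟩)]
          rw [hL0]; simp) ha hloop
        have herase : (u :: L).toFinset.erase u = L.toFinset := by
          rw [List.toFinset_cons, erase_insert]
          simpa using huL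
        rw [h4, herase]
        push_cast
        rw [mul_sum]
        refine sum_congr rfl fun t _ => ?_
        refine ih (sm e u t) hL hLne hvL ?_
        refine B5_act e u v L.toFinset (by simpa using huL) (fun h => hvu h.symm) ?_ t
        rw [← List.toFinset_cons]
        exact ha

end CT
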